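import Mathlib

/-! Balanced presentations with relators of Baumslag-Solitar type. -/

set_option autoImplicit false

namespace Pool.Agent.Lib.MP_fac56a_al.DigraphRelators

theorem size (p : ℕ) (ho : Odd p) (a b : ℤ) (h : |b| ≤ a) :
    a ^ (p - 1) * (a - b) ≤ 2 * (a ^ p - b ^ p) := by
  obtain ⟨k, rfl⟩ := ho
  have h0 : 0 ≤ a := (abs_nonneg b).trans h
  obtain ⟨h1, h2⟩ := abs_le.1 h
  have h3 : b ^ (2 * k) ≤ a ^ (2 * k) := by
    rw [pow_mul, pow_mul]
    exact pow_le_pow_left₀ (sq_nonneg b) (by nlinarith) k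
  have h4 : 0 ≤ b ^ (2 * k) := by rw [pow_mul]; positivity
  have h5 : 0 ≤ a ^ (2 * k) := by positivity
  simp only [Nat.add_sub_cancel, pow_succ]
  rcases le_total b 0 with hb | hb
  · nlinarith [mul_nonneg h5 (sub_nonneg.2 h1), mul_nonneg h4 (neg_nonneg.2 hb)]
  · nlinarith [mul_nonneg h5 (sub_nonneg.2 h2), mul_nonneg (sub_nonneg.2 h3) hb]

theorem big (p : ℕ) (h5 : 5 ≤ p) : 2 * p < 3 ^ (p - 1) := by
  induction p, h5 using Nat.le_induction with
  | base => norm_num
  | succ m hm ih =>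
    obtain ⟨k, rfl⟩ : ∃ k, m = k + 1 := ⟨m - 1, by omega⟩
    simp only [Nat.add_sub_cancel] at ih ⊢
    rw [pow_succ]
    omega

theorem key0 (p : ℕ) (hp : p.Prime) (h5 : 5 ≤ p) (a b : ℤ) (h : |b| ≤ a) (hd : (p : ℤ) ∣ a - b)
    (ha : ¬ (p : ℤ) ∣ a) : ∃ q : ℕ, q.Prime ∧ q ≠ p ∧ (q : ℤ) ∣ a ^ p - b ^ p := by
  have ho : Odd p := hp.odd_of_ne_two (by omega)
  by_cases hab : a = b
  · exact ⟨2, Nat.prime_two, by omega, by simp [hab]⟩
  by_contra hn
  have hlt : 0 < a - b := by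
    have := (abs_le.1 h).2
    omega
  have hp' : Prime (p : ℤ) := Nat.prime_iff_prime_int.1 hp
  obtain ⟨F, hF⟩ : ∃ F, F = ∑ i ∈ Finset.range p, a ^ i * b ^ (p - 1 - i) := ⟨_, rfl⟩
  have e : F * (a - b) = a ^ p - b ^ p := hF ▸ geom_sum₂_mul a b p
  have h1 : emultiplicity (p : ℤ) F = 1 := hF ▸ emultiplicity_geom_sum₂_eq_one hp' ho hd ha
  have h2 := size p ho a b h
  have h3 : (p : ℤ) ≤ a - b := Int.le_of_dvd hlt hd
  have h4 : 3 ≤ a := by
    have := (abs_le.1 h).1
    omega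
  have h6 : (2 * p : ℤ) < a ^ (p - 1) :=
    lt_of_lt_of_le (by exact_mod_cast big p h5) (pow_le_pow_left₀ (by norm_num) h4 _)
  have h7 : (p : ℤ) < F := by
    by_contra hc
    have := mul_le_mul_of_nonneg_right (not_lt.1 hc) hlt.le
    nlinarith
  obtain ⟨c, hc⟩ : (p : ℤ) ∣ F := by
    simpa using pow_dvd_of_le_emultiplicity (k := 1) (a := (p : ℤ)) (b := F) (by rw [h1]; rfl)
  have hc1 : c.natAbs ≠ 1 := by
    intro h8
    have hp0 : (0 : ℤ) < p := by omega
    rcases Int.natAbs_eq_iff.1 h8 with rfl | rfl <;> simp at hc <;> omega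
  obtain ⟨q, hq, hqc⟩ := Nat.exists_prime_and_dvd hc1
  have hqc' : (q : ℤ) ∣ c := Int.natCast_dvd.2 hqc
  refine hn ⟨q, hq, ?_, ?_⟩
  · rintro rfl
    have h9 : (q : ℤ) ^ 2 ∣ F := by
      rw [hc, sq]
      exact mul_dvd_mul_left _ hqc'
    have := le_emultiplicity_of_pow_dvd h9
    rw [h1] at this
    norm_num at this
  · rw [← e, hc]
    exact ((hqc'.mul_left _).mul_right _)

theorem key (p : ℕ) (hp : p.Prime) (h5 : 5 ≤ p) (a b : ℤ) (hd : (p : ℤ) ∣ a - b)
    (ha : ¬ (p : ℤ) ∣ a) : ∃ q : ℕ, q.Prime ∧ q ≠ p ∧ (q : ℤ) ∣ a ^ p - b ^ p := by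
  have ho : Odd p := hp.odd_of_ne_two (by omega)
  have hb : ¬ (p : ℤ) ∣ b := fun h => ha (by simpa using hd.add h)
  have hd' : (p : ℤ) ∣ b - a := by rw [← neg_sub]; exact hd.neg_right
  have fin : ∀ x : ℤ, (x = a ^ p - b ^ p ∨ x = -(a ^ p - b ^ p)) →
      (∃ q : ℕ, q.Prime ∧ q ≠ p ∧ (q : ℤ) ∣ x) →
      ∃ q : ℕ, q.Prime ∧ q ≠ p ∧ (q : ℤ) ∣ a ^ p - b ^ p := by
    rintro x (rfl | rfl) ⟨q, h1, h2, h3⟩
    · exact ⟨q, h1, h2, h3⟩
    · exact ⟨q, h1, h2, dvd_neg.1 h3⟩
  rcases le_total |b| |a| with h | h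
  · rcases le_total 0 a with h0 | h0
    · exact key0 p hp h5 a b (by rwa [abs_of_nonneg h0] at h) hd ha
    · refine fin _ (Or.inr ?_) (key0 p hp h5 (-a) (-b) (by rwa [abs_of_nonpos h0, ← abs_neg b] at h)
        (by convert hd' using 1; ring) (by simpa using ha))
      rw [ho.neg_pow, ho.neg_pow]; ring
  · rcases le_total 0 b with h0 | h0
    · exact fin _ (Or.inr (by ring)) (key0 p hp h5 b a (by rwa [abs_of_nonneg h0] at h) hd' hb)
    · refine fin _ (Or.inl ?_) (key0 p hp h5 (-b) (-a) (by rwa [abs_of_nonpos h0, ← abs_neg a] at h)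
        (by convert hd using 1; ring) (by simpa using hb))
      rw [ho.neg_pow, ho.neg_pow]; ring

section
variable {n : ℕ} (s t : Fin n → Fin n) (a b c : Fin n → ℤ)

/-- the relators -/
def rel (k : Fin n) : FreeGroup (Fin n) :=
  (FreeGroup.of (s k) ^ c k)⁻¹ * FreeGroup.of (t k) ^ b k * FreeGroup.of (s k) ^ c k *
    (FreeGroup.of (t k) ^ a k)⁻¹

theorem hom {H : Type} [Group H] (g : Fin n → H)
    (h : ∀ k, (g (s k) ^ c k)⁻¹ * g (t k) ^ b k * g (s k) ^ c k = g (t k) ^ a k) :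
    ∃ φ : PresentedGroup (Set.range (rel s t a b c)) →* H, ∀ v, φ (PresentedGroup.of v) = g v := by
  refine ⟨PresentedGroup.toGroup (f := g) ?_, fun v => PresentedGroup.toGroup.of _⟩
  rintro _ ⟨k, rfl⟩
  simp only [rel, map_mul, map_inv, map_zpow, FreeGroup.lift_apply_of, h k, mul_inv_cancel]

theorem holds (k : Fin n) :
    ((PresentedGroup.of (s k) : PresentedGroup (Set.range (rel s t a b c))) ^ c k)⁻¹ *
      PresentedGroup.of (t k) ^ b k * PresentedGroup.of (s k) ^ c k =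
        PresentedGroup.of (t k) ^ a k := by
  have h := PresentedGroup.one_of_mem (rels := Set.range (rel s t a b c)) ⟨k, rfl⟩
  simp only [rel, map_mul, map_inv, map_zpow] at h
  exact mul_inv_eq_one.1 h

end

theorem addz {K : Type} [AddCommGroup K] (c : K) (m : ℤ) :
    Equiv.addLeft c ^ m = Equiv.addLeft (m • c) := by
  let ψ : Multiplicative K →* Equiv.Perm K :=
    { toFun := fun x => Equiv.addLeft x.toAdd
      map_one' := by ext x; simp
      map_mul' := fun x y => by ext z; simp }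
  exact (map_zpow ψ (Multiplicative.ofAdd c) m).symm

theorem trans {G K : Type} [Group G] [Field K] (p : ℕ) (hK : (p : K) ≠ 0) (hG : IsPGroup p G)
    (φ : G →* Equiv.Perm K) (x : G) (c : K) (h : φ x = Equiv.addLeft c) : c = 0 := by
  obtain ⟨m, hm⟩ := hG x
  have h1 := congrArg φ hm
  rw [map_pow, h, map_one, ← zpow_natCast, addz] at h1
  have h2 := congrArg (fun e : Equiv.Perm K => e 0) h1
  simp only [Equiv.coe_addLeft, add_zero, Equiv.Perm.coe_one, id, zsmul_eq_mul, Nat.cast_pow,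
    Int.cast_pow, Int.cast_natCast] at h2
  exact (mul_eq_zero.1 h2).resolve_left (pow_ne_zero _ hK)

theorem zp {H : Type} [Group H] (p : ℕ) (X : H) (hX : X ^ p = 1) (a b : ℤ) (h : (p : ℤ) ∣ a - b) :
    X ^ b = X ^ a := by
  obtain ⟨c, hc⟩ := h
  have : a = p * c + b := by omega
  rw [this, zpow_add, zpow_mul, zpow_natCast, hX, one_zpow, one_mul]

theorem two {n : ℕ} (s t : Fin n → Fin n) (a b c : Fin n → ℤ) (ht : Function.Injective t)
    {H : Type} [Group H] (X Y : H) (k l : Fin n) (hkl : k ≠ l) (hs : s l ≠ t k)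
    (hY : Y ^ b l = Y ^ a l) (hX : s k = t l → (Y ^ c k)⁻¹ * X ^ b k * Y ^ c k = X ^ a k)
    (hX' : s k ≠ t l → X ^ b k = X ^ a k) :
    ∃ φ : PresentedGroup (Set.range (rel s t a b c)) →* H,
      φ (PresentedGroup.of (t k)) = X ∧ φ (PresentedGroup.of (t l)) = Y := by
  classical
  have hne : t l ≠ t k := fun h => hkl (ht h).symm
  obtain ⟨φ, hφ⟩ := hom s t a b c (fun v => if v = t k then X else if v = t l then Y else 1) (by
    intro j
    by_cases h1 : j = k
    · subst h1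
      by_cases h2 : s j = t l
      · simp only [h2, hne, if_true, if_false]
        exact hX h2
      · by_cases h3 : s j = t j
        · simp only [h3, if_true, hX' h2]
          group
        · simp only [h2, h3, if_true, if_false, hX' h2]
          group
    · by_cases h2 : j = l
      · subst h2
        by_cases h3 : s j = t j
        · simp only [h3, hne, if_true, if_false, hY]
          group
        · simp only [h3, hs, hne, if_true, if_false, hY]
          group
      · have h3 : t j ≠ t k := fun h => h1 (ht h)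
        have h4 : t j ≠ t l := fun h => h2 (ht h)
        simp only [h3, h4, if_false]
        group)
  exact ⟨φ, by simp [hφ], by simp [hφ, hne]⟩

theorem link (p : ℕ) (hp : p.Prime) (h5 : 5 ≤ p) {n : ℕ} (s t : Fin n → Fin n) (a b c : Fin n → ℤ)
    (ht : Function.Injective t) (hG : IsPGroup p (PresentedGroup (Set.range (rel s t a b c))))
    (k l : Fin n) (hkl : k ≠ l) (hk : (p : ℤ) ∣ a k - b k) (hl : (p : ℤ) ∣ a l - b l) :
    s l = t k := by
  by_contra hs
  by_cases h : s k = t l ∧ ¬ (p : ℤ) ∣ a k ∧ ¬ (p : ℤ) ∣ c k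
  · obtain ⟨q, hq, hqp, hd⟩ := key p hp h5 _ _ hk h.2.1
    have := Fact.mk hq
    have hK : (p : ZMod q) ≠ 0 := fun h0 =>
      hqp ((Nat.prime_dvd_prime_iff_eq hq hp).1 ((ZMod.natCast_eq_zero_iff p q).1 h0))
    have hd' : (a k : ZMod q) ^ p = (b k : ZMod q) ^ p := by
      have := (ZMod.intCast_zmod_eq_zero_iff_dvd _ q).2 hd
      push_cast at this
      exact sub_eq_zero.1 this
    obtain ⟨u, hu, hab⟩ : ∃ u : (ZMod q)ˣ, u ^ p = 1 ∧ (b k : ZMod q) = u * (a k : ZMod q) := by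
      by_cases h0 : (a k : ZMod q) = 0
      · refine ⟨1, one_pow _, ?_⟩
        rw [h0, zero_pow hp.ne_zero] at hd'
        rw [h0, pow_eq_zero_iff hp.ne_zero |>.1 hd'.symm, mul_zero]
      · have h1 : (b k : ZMod q) ≠ 0 := fun h1 => by
          rw [h1, zero_pow hp.ne_zero] at hd'
          exact h0 (pow_eq_zero_iff hp.ne_zero |>.1 hd')
        refine ⟨Units.mk0 _ (div_ne_zero h1 h0), Units.ext ?_, ?_⟩
        · simp only [Units.val_pow_eq_pow_val, Units.val_mk0, Units.val_one, div_pow, ← hd']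
          exact div_self (pow_ne_zero _ h0)
        · simp only [Units.val_mk0]
          field_simp
    obtain ⟨w, e, hwe⟩ :=
      ((Nat.prime_iff_prime_int.1 hp).irreducible.coprime_iff_not_dvd).2 h.2.2
    have hv : (u ^ e) ^ c k = u := by
      rw [← zpow_mul, ← zp p u hu (e * c k) 1 ⟨-w, by linear_combination hwe⟩, zpow_one]
    have hv' : (u ^ e) ^ p = 1 := by
      rw [← zpow_natCast, ← zpow_mul, mul_comm, zpow_mul, zpow_natCast, hu, one_zpow]
    obtain ⟨φ, h1, -⟩ := two s t a b c ht (Equiv.addLeft (1 : ZMod q))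
      (MulAction.toPermHom (ZMod q)ˣ (ZMod q) (u ^ e)) k l hkl hs
      (zp p _ (by rw [← map_pow, hv', map_one]) _ _ hl) (fun _ => by
        rw [← map_zpow, hv, ← map_inv, addz, addz]
        ext x
        change ((u⁻¹ : (ZMod q)ˣ) : ZMod q) * (b k • (1 : ZMod q) + u * x) = a k • (1 : ZMod q) + x
        rw [zsmul_one, zsmul_one, hab, ← mul_add, Units.inv_mul_cancel_left])
      (fun h2 => absurd h.1 h2)
    exact one_ne_zero (trans p hK hG φ _ _ h1)
  · have hz := Complex.isPrimitiveRoot_exp p hp.ne_zero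
    obtain ⟨z, hz⟩ : ∃ z : ℂ, IsPrimitiveRoot z p := ⟨_, hz⟩
    have hz0 : z ≠ 0 := hz.ne_zero hp.ne_zero
    obtain ⟨X, hX⟩ : ∃ X, X = MulAction.toPermHom ℂˣ ℂ (Units.mk0 z hz0) := ⟨_, rfl⟩
    have hXp : X ^ p = 1 := by
      rw [hX, ← map_pow, ← map_one (MulAction.toPermHom ℂˣ ℂ)]
      congr 1
      exact Units.ext (by simpa using hz.pow_eq_one)
    have hYp : ((Equiv.addLeft (1 : ℂ))⁻¹ * X⁻¹ * (Equiv.addLeft (1 : ℂ))⁻¹⁻¹) ^ p = 1 := by
      rw [conj_pow, inv_pow, hXp, inv_one, mul_one, mul_inv_cancel]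
    obtain ⟨φ, h1, h2⟩ := two s t a b c ht X
      ((Equiv.addLeft (1 : ℂ))⁻¹ * X⁻¹ * (Equiv.addLeft (1 : ℂ))⁻¹⁻¹) k l hkl hs
      (zp p _ hYp _ _ hl) (fun h3 => by
        by_cases h4 : (p : ℤ) ∣ a k
        · have h6 := zp p X hXp (a k) 0 (by simpa using h4)
          rw [zp p X hXp _ _ hk, ← h6, zpow_zero, mul_one, inv_mul_cancel]
        · have h7 : (p : ℤ) ∣ c k := by
            by_contra h7
            exact h ⟨h3, h4, h7⟩
          have h6 := zp p _ hYp (c k) 0 (by simpa using h7)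
          rw [zp p X hXp _ _ hk, ← h6, zpow_zero, mul_one, inv_one, one_mul])
      (fun _ => zp p X hXp _ _ hk)
    have h3 := trans p (Nat.cast_ne_zero.2 hp.ne_zero) hG φ
      (PresentedGroup.of (t k) * PresentedGroup.of (t l)) (1 - z) (by
        rw [map_mul, h1, h2, hX, ← map_inv]
        ext x
        simp [Units.smul_def]
        field_simp
        ring)
    exact hz.ne_one hp.one_lt (sub_eq_zero.1 h3).symm

theorem surj (p : ℕ) (hp : p.Prime) {n : ℕ} (s t : Fin n → Fin n) (a b c : Fin n → ℤ)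
    (hG : IsPGroup p (PresentedGroup (Set.range (rel s t a b c)))) : Function.Surjective t := by
  classical
  intro j
  by_contra hj
  obtain ⟨φ, hφ⟩ := hom s t a b c (fun v => if v = j then Equiv.addLeft (1 : ℂ) else 1) (by
    intro k
    have : t k ≠ j := fun h => hj ⟨k, h⟩
    simp only [this, if_false]
    group)
  exact one_ne_zero (trans p (Nat.cast_ne_zero.2 hp.ne_zero) hG φ (PresentedGroup.of j) 1
    (by simp [hφ]))

theorem comm {G : Type} [Group G] [Finite G] (p : ℕ) (hp : p.Prime) (hG : IsPGroup p G)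
    (M : Subgroup G) (hM : IsCoatom M) : M.Normal ∧ ∀ x y : G, x * y * x⁻¹ * y⁻¹ ∈ M := by
  have := Fact.mk hp
  have := hG.isNilpotent
  have hN : M.Normal := Subgroup.NormalizerCondition.normal_of_coatom M
    Group.normalizerCondition_of_isNilpotent hM
  refine ⟨hN, fun x y => ?_⟩
  have hQ : IsPGroup p (G ⧸ M) := hG.to_quotient M
  have : Nontrivial (G ⧸ M) := QuotientGroup.nontrivial_iff.2 hM.1
  have := hQ.center_nontrivial
  obtain ⟨⟨c, hc⟩, hc1⟩ := exists_ne (1 : Subgroup.center (G ⧸ M))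
  obtain ⟨g, rfl⟩ := QuotientGroup.mk_surjective c
  have hlt : M < (Subgroup.center (G ⧸ M)).comap (QuotientGroup.mk' M) := by
    refine lt_of_le_of_ne (fun m hm => ?_) fun h => hc1 (Subtype.ext ?_)
    · have : QuotientGroup.mk' M m = 1 := (QuotientGroup.eq_one_iff m).2 hm
      rw [Subgroup.mem_comap, this]
      exact one_mem _
    · exact (QuotientGroup.eq_one_iff g).2 (h ▸ hc)
  have hx : x ∈ (Subgroup.center (G ⧸ M)).comap (QuotientGroup.mk' M) := by
    rw [hM.2 _ hlt]; trivial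
  have := Subgroup.mem_center_iff.1 hx (QuotientGroup.mk' M y)
  rw [← QuotientGroup.eq_one_iff]
  change QuotientGroup.mk' M _ = 1
  rw [map_mul, map_mul, map_mul, ← this, map_inv, map_inv]
  group

theorem main (p : ℕ) (hp : p.Prime) (h5 : 5 ≤ p) (n : ℕ) (s t : Fin n → Fin n) (a b c : Fin n → ℤ)
    (hF : Finite (PresentedGroup (Set.range (rel s t a b c))))
    (hG : IsPGroup p (PresentedGroup (Set.range (rel s t a b c)))) :
    ∃ x y : PresentedGroup (Set.range (rel s t a b c)), Subgroup.closure {x, y} = ⊤ := by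
  have hs := surj p hp s t a b c hG
  have ht := Finite.injective_iff_surjective.2 hs
  obtain ⟨x, y, hxy⟩ : ∃ x y : PresentedGroup (Set.range (rel s t a b c)), ∀ k,
      (p : ℤ) ∣ a k - b k → PresentedGroup.of (t k) = x ∨ PresentedGroup.of (t k) = y := by
    by_cases h1 : ∃ k l, k ≠ l ∧ (p : ℤ) ∣ a k - b k ∧ (p : ℤ) ∣ a l - b l
    · obtain ⟨k, l, hkl, hk, hl⟩ := h1
      refine ⟨PresentedGroup.of (t k), PresentedGroup.of (t l), fun j hj => ?_⟩
      by_cases h2 : j = l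
      · exact Or.inr (h2 ▸ rfl)
      · have e1 := link p hp h5 s t a b c ht hG k l hkl hk hl
        have e2 := link p hp h5 s t a b c ht hG j l h2 hj hl
        exact Or.inl (by rw [← e1, e2])
    · by_cases h2 : ∃ k, (p : ℤ) ∣ a k - b k
      · obtain ⟨k, hk⟩ := h2
        refine ⟨PresentedGroup.of (t k), 1, fun j hj => Or.inl ?_⟩
        by_contra h3
        exact h1 ⟨j, k, fun h => h3 (h ▸ rfl), hj, hk⟩
      · exact ⟨1, 1, fun k hk => absurd ⟨k, hk⟩ h2⟩
  refine ⟨x, y, ?_⟩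
  by_contra hne
  obtain ⟨M, hM, hle⟩ := (eq_top_or_exists_le_coatom (Subgroup.closure {x, y})).resolve_left hne
  obtain ⟨hN, hc⟩ := comm p hp hG M hM
  refine hM.1 (eq_top_iff.2 ?_)
  rw [← PresentedGroup.closure_range_of, Subgroup.closure_le]
  rintro _ ⟨v, rfl⟩
  obtain ⟨k, rfl⟩ := hs v
  by_cases hk : (p : ℤ) ∣ a k - b k
  · rcases hxy k hk with h | h <;> rw [h] <;> exact hle (Subgroup.subset_closure (by simp))
  · obtain ⟨g, hg⟩ : ∃ g : PresentedGroup (Set.range (rel s t a b c)),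
        g = PresentedGroup.of (t k) := ⟨_, rfl⟩
    have h1 := hc (PresentedGroup.of (s k) ^ c k)⁻¹ (g ^ b k)
    rw [inv_inv, hg, holds, ← hg, ← zpow_sub] at h1
    obtain ⟨m, hm⟩ := hG g
    have h2 : IsCoprime (a k - b k) ((p : ℤ) ^ m) :=
      (((Nat.prime_iff_prime_int.1 hp).irreducible.coprime_iff_not_dvd).2 hk).symm.pow_right
    obtain ⟨u, w, huw⟩ := h2
    have h3 : g = (g ^ (a k - b k)) ^ u := by
      have h4 : g ^ ((p : ℤ) ^ m) = 1 := by exact_mod_cast hm
      conv_lhs => rw [← zpow_one g, ← huw, zpow_add, mul_comm w, zpow_mul g _ w, h4, one_zpow,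
        mul_one, mul_comm u, zpow_mul]
    rw [← hg, h3]
    exact M.zpow_mem h1 u

/-- For `p ≥ 5`, a finite `p`-group with a balanced presentation all of whose relators are of
Baumslag-Solitar type is generated by two elements. -/
theorem result (p : ℕ) (hp : p.Prime) (h5 : 5 ≤ p) (n : ℕ) (r : Fin n → FreeGroup (Fin n))
    (hr : ∀ k, ∃ (i j : Fin n) (a b c : ℤ), r k =
      (FreeGroup.of i ^ c)⁻¹ * FreeGroup.of j ^ b * FreeGroup.of i ^ c * (FreeGroup.of j ^ a)⁻¹)
    (hF : Finite (PresentedGroup (Set.range r))) (hG : IsPGroup p (PresentedGroup (Set.range r))) :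
    ∃ x y : PresentedGroup (Set.range r), Subgroup.closure {x, y} = ⊤ := by
  choose s t a b c h using hr
  obtain rfl : r = rel s t a b c := funext h
  exact main p hp h5 n s t a b c hF hG

end Pool.Agent.Lib.MP_fac56a_al.DigraphRelators
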