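import Mathlib
set_option autoImplicit false
namespace Pool.Agent.Lib.MP_fac56a_al.FourSyllables

theorem two_pow (p : ℕ) (h5 : 5 ≤ p) : 2 * p < 2 ^ (p - 1) := by
  induction p, h5 using Nat.le_induction with
  | base => norm_num
  | succ k hk ih =>
    obtain ⟨j, rfl⟩ : ∃ j, k = j + 1 := ⟨k - 1, by omega⟩
    simp only [Nat.add_sub_cancel] at ih ⊢
    rw [pow_succ]; omega

theorem big_pos (p : ℕ) (h5 : 5 ≤ p) (ho : Odd p) (A B : ℤ) (hA : 2 ≤ A) (hB : |B| ≤ A) (hne : B ≠ A) :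
    (p : ℤ) * (A - B) < A ^ p - B ^ p := by
  obtain ⟨j, rfl⟩ : ∃ j, p = j + 1 := ⟨p - 1, by omega⟩
  have h2 : (2 : ℤ) * ((j + 1 : ℕ) : ℤ) < 2 ^ j := by
    have := two_pow (j + 1) h5
    simp only [Nat.add_sub_cancel] at this
    exact_mod_cast this
  have h3 : (2 : ℤ) ^ j ≤ A ^ j := pow_le_pow_left₀ (by norm_num) hA j
  have hb := abs_le.mp hB
  have hj : (0 : ℤ) < ((j + 1 : ℕ) : ℤ) := by positivity
  rcases le_or_gt 0 B with h0 | h0
  · have h4 : B ^ j ≤ A ^ j := pow_le_pow_left₀ h0 hb.2 j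
    have h6 : 0 < A - B := by have := lt_of_le_of_ne hb.2 hne; omega
    rw [pow_succ, pow_succ]
    have h7 : B ^ j * B ≤ A ^ j * B := mul_le_mul_of_nonneg_right h4 h0
    have h8 : ((j + 1 : ℕ) : ℤ) * (A - B) < A ^ j * (A - B) :=
      mul_lt_mul_of_pos_right (by omega) h6
    nlinarith
  · have h4 : B ^ (j + 1) < 0 := ho.pow_neg h0
    have h8 : (2 * ((j + 1 : ℕ) : ℤ)) * A < A ^ j * A :=
      mul_lt_mul_of_pos_right (by omega) (by omega)
    rw [pow_succ A]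
    nlinarith

theorem big (p : ℕ) (h5 : 5 ≤ p) (ho : Odd p) (a b : ℤ) (hA : 2 ≤ |a|) (hB : |b| ≤ |a|) (hne : b ≠ a) :
    (p : ℤ) * |a - b| < |a ^ p - b ^ p| := by
  rcases le_or_gt 0 a with h0 | h0
  · rw [abs_of_nonneg h0] at hA hB
    have h := big_pos p h5 ho a b hA hB hne
    have hb := abs_le.mp hB
    rw [abs_of_nonneg (by omega : 0 ≤ a - b)]
    exact h.trans_le (le_abs_self _)
  · rw [abs_of_neg h0] at hA hB
    have h := big_pos p h5 ho (-a) (-b) hA (by rwa [abs_neg]) (fun e => hne (neg_injective e))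
    have hb := abs_le.mp hB
    rw [ho.neg_pow, ho.neg_pow] at h
    rw [abs_of_nonpos (by omega : a - b ≤ 0)]
    have := neg_le_abs (a ^ p - b ^ p)
    have e : -(a - b) = -a - -b := by ring
    rw [e]; linarith

theorem nt_cop (p : ℕ) (hp : p.Prime) (h5 : 5 ≤ p) (a b : ℤ) (hb : b ≠ 0) (hab : |b| ≤ |a|)
    (hc : IsCoprime a b) : ∃ q : ℕ, q.Prime ∧ q ≠ p ∧ (q : ℤ) ∣ a ^ p - b ^ p := by
  have ho : Odd p := hp.odd_of_ne_two (by omega)
  by_cases h2 : 2 ≤ |a|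
  swap
  · refine ⟨2, Nat.prime_two, by omega, ?_⟩
    have h1 : 0 < |b| := abs_pos.mpr hb
    have ea : a = 1 ∨ a = -1 := by
      rcases abs_cases a with h | h <;> omega
    have eb : b = 1 ∨ b = -1 := by
      rcases abs_cases b with h | h <;> omega
    rcases ea with rfl | rfl <;> rcases eb with rfl | rfl <;> simp [ho.neg_one_pow]
  by_cases hne : b = a
  · exact ⟨2, Nat.prime_two, by omega, by simp [hne]⟩
  have hbig := big p h5 ho a b h2 hab hne
  set S : ℤ := ∑ i ∈ Finset.range p, a ^ i * b ^ (p - 1 - i) with hS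
  have hmul : S * (a - b) = a ^ p - b ^ p := geom_sum₂_mul a b p
  have hpos : 0 < |a - b| := abs_pos.mpr (sub_ne_zero.mpr (Ne.symm hne))
  have hSp : (p : ℤ) < |S| := by
    rw [← hmul, abs_mul] at hbig
    exact lt_of_mul_lt_mul_right hbig hpos.le
  by_contra hno
  push Not at hno
  have hS0 : S.natAbs ≠ 0 := by
    intro e
    have : S = 0 := Int.natAbs_eq_zero.mp e
    rw [this, abs_zero] at hSp
    omega
  have hall : ∀ {d : ℕ}, d.Prime → d ∣ S.natAbs → d = p := by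
    intro d hd hdv
    by_contra hdp
    refine hno d hd hdp ?_
    rw [← hmul]
    exact (Int.natCast_dvd.mpr hdv).mul_right _
  have hpow := Nat.eq_prime_pow_of_unique_prime_dvd hS0 hall
  set k := S.natAbs.primeFactorsList.length
  have hk : 2 ≤ k := by
    by_contra hk
    have h1 : p ^ k ≤ p ^ 1 := Nat.pow_le_pow_right hp.pos (by omega)
    rw [← hpow, pow_one] at h1
    rw [← Int.natCast_natAbs] at hSp
    omega
  have hd2 : (p : ℤ) ^ 2 ∣ S := by
    have : p ^ 2 ∣ S.natAbs := by rw [hpow]; exact pow_dvd_pow _ hk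
    exact_mod_cast Int.natCast_dvd.mpr this
  have hpi : Prime (p : ℤ) := Nat.prime_iff_prime_int.mp hp
  have hd1 : (p : ℤ) ∣ a ^ p - b ^ p := by
    rw [← hmul]
    exact ((dvd_pow_self _ two_ne_zero).trans hd2).mul_right _
  have : Fact p.Prime := ⟨hp⟩
  have hxy : (p : ℤ) ∣ a - b := by
    rw [← ZMod.intCast_zmod_eq_zero_iff_dvd] at hd1 ⊢
    push_cast at hd1 ⊢
    rwa [ZMod.pow_card, ZMod.pow_card] at hd1
  have hx : ¬ (p : ℤ) ∣ a := by
    intro h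
    have hb' : (p : ℤ) ∣ b := by simpa using dvd_sub h hxy
    exact hpi.not_isUnit (hc.isUnit_of_dvd' h hb')
  have he := emultiplicity_geom_sum₂_eq_one hpi ho hxy hx
  have := (emultiplicity_eq_coe.mp (by rw [he]; rfl : emultiplicity (p : ℤ) S = (1 : ℕ))).2
  exact this hd2

theorem nt (p : ℕ) (hp : p.Prime) (h5 : 5 ≤ p) (a b : ℤ) (ha : a ≠ 0) (hb : b ≠ 0) :
    ∃ q : ℕ, q.Prime ∧ q ≠ p ∧ (q : ℤ) ∣ a ^ p - b ^ p := by
  obtain ⟨g, a', b', hg, hc, rfl, rfl⟩ := Int.exists_gcd_one' (Int.gcd_pos_of_ne_zero_left b ha)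
  have hc' : IsCoprime a' b' := Int.isCoprime_iff_gcd_eq_one.mpr hc
  have key : ∃ q : ℕ, q.Prime ∧ q ≠ p ∧ (q : ℤ) ∣ a' ^ p - b' ^ p := by
    rcases le_total |b'| |a'| with h | h
    · exact nt_cop p hp h5 a' b' (left_ne_zero_of_mul hb) h hc'
    · obtain ⟨q, h1, h2, h3⟩ := nt_cop p hp h5 b' a' (left_ne_zero_of_mul ha) h hc'.symm
      exact ⟨q, h1, h2, dvd_sub_comm.mp h3⟩
  obtain ⟨q, h1, h2, h3⟩ := key
  refine ⟨q, h1, h2, ?_⟩
  rw [mul_pow, mul_pow, ← sub_mul]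
  exact h3.mul_right _

open FreeGroup in
theorem factor {H : Type*} [Group H] (f : FreeGroup (Fin 3) →* H) (hz : f (of 2) = 1)
    (w : FreeGroup (Fin 3)) : f (lift ![of 0, of 1, 1] w : FreeGroup (Fin 3)) = f w := by
  have : f.comp (lift ![of 0, of 1, 1]) = f := by
    ext i
    fin_cases i <;> simp [hz]
  exact DFunLike.congr_fun this w

theorem zp {K : Type*} [AddCommGroup K] (c : K) (n : ℤ) :
    (Equiv.addRight c : Equiv.Perm K) ^ n = Equiv.addRight (n • c) := by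
  let T : Multiplicative K →* Equiv.Perm K :=
    { toFun := fun c => Equiv.addRight c.toAdd
      map_one' := by ext; simp
      map_mul' := by intro x y; ext t; simp; abel }
  exact (map_zpow T (Multiplicative.ofAdd c) n).symm

theorem affine (p : ℕ) (hp : p.Prime) (h5 : 5 ≤ p) (a b : ℤ) (ha : a ≠ 0) (hb : b ≠ 0) :
    ∃ (q : ℕ) (X Y : Equiv.Perm (ZMod q)), Y⁻¹ * X ^ a * Y * X ^ (-b) = 1 ∧ Y ^ p = 1 ∧
      ∀ k : ℕ, X ^ p ^ k ≠ 1 := by
  obtain ⟨q, hq, hqp, hd⟩ := nt p hp h5 a b ha hb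
  have : Fact q.Prime := ⟨hq⟩
  have he : (a : ZMod q) ^ p = (b : ZMod q) ^ p := by
    rw [← ZMod.intCast_zmod_eq_zero_iff_dvd] at hd
    push_cast at hd
    exact sub_eq_zero.mp hd
  obtain ⟨u, hu, hub⟩ : ∃ u : (ZMod q)ˣ, u ^ p = 1 ∧ (a : ZMod q) = u * b := by
    by_cases h0 : (b : ZMod q) = 0
    · refine ⟨1, one_pow _, ?_⟩
      rw [h0, zero_pow hp.ne_zero] at he
      rw [h0, mul_zero]
      exact pow_eq_zero_iff hp.ne_zero |>.mp he
    · have ha0 : (a : ZMod q) ≠ 0 := by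
        intro e
        rw [e, zero_pow hp.ne_zero] at he
        exact pow_ne_zero p h0 he.symm
      refine ⟨Units.mk0 (a / b) (div_ne_zero ha0 h0), ?_, ?_⟩
      · ext
        simp [div_pow, he, pow_ne_zero p h0]
      · simp [h0]
  refine ⟨q, Equiv.addRight 1, MulAction.toPermHom (ZMod q)ˣ (ZMod q) u, ?_, ?_, ?_⟩
  · rw [← map_inv, zp, zp]
    ext t
    simp only [Equiv.Perm.mul_apply, MulAction.toPermHom_apply, MulAction.toPerm_apply,
      Equiv.coe_addRight, Equiv.Perm.one_apply, zsmul_eq_mul, mul_one, Units.smul_def, smul_eq_mul]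
    rw [hub]
    push_cast
    have := mul_inv_cancel₀ u.ne_zero
    linear_combination t * this
  · rw [← map_pow, hu, map_one]
  · intro k hk
    rw [← zpow_natCast, zp] at hk
    have h1 := DFunLike.congr_fun hk 0
    simp only [Equiv.coe_addRight, Equiv.Perm.one_apply, zsmul_eq_mul, mul_one, zero_add,
      Int.cast_natCast] at h1
    rw [ZMod.natCast_eq_zero_iff] at h1
    exact hqp ((Nat.prime_dvd_prime_iff_eq hq hp).mp (hq.dvd_of_dvd_pow h1))

theorem rot (p : ℕ) (hp : p.Prime) (h5 : 5 ≤ p) :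
    ∃ (q : ℕ) (X Y : Equiv.Perm (ZMod q)), X ^ p = 1 ∧ Y ^ p = 1 ∧
      ∀ k : ℕ, (X * Y) ^ p ^ k ≠ 1 := by
  obtain ⟨q, T, M, h1, h2, h3⟩ := affine p hp h5 2 1 two_ne_zero one_ne_zero
  refine ⟨q, M⁻¹, T ^ (2 : ℤ) * M * (T ^ (2 : ℤ))⁻¹, by rw [inv_pow, h2, inv_one], ?_, ?_⟩
  · rw [conj_pow, h2]; group
  · intro k hk
    have e : M⁻¹ * (T ^ (2 : ℤ) * M * (T ^ (2 : ℤ))⁻¹) = T⁻¹ := by
      have : M⁻¹ * (T ^ (2 : ℤ) * M * (T ^ (2 : ℤ))⁻¹) =
          (M⁻¹ * T ^ (2 : ℤ) * M * T ^ (-1 : ℤ)) * T⁻¹ := by group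
      rw [this, h1, one_mul]
    rw [e, inv_pow, inv_eq_one] at hk
    exact h3 k hk

theorem zp_dvd {K : Type*} [Group K] {Y : K} {p : ℕ} (h : Y ^ p = 1) {n : ℤ} (hn : (p : ℤ) ∣ n) :
    Y ^ n = 1 := by
  obtain ⟨m, rfl⟩ := hn
  simp [zpow_mul, h]

theorem pair (p : ℕ) (hp : p.Prime) (h5 : 5 ≤ p) (a b k l : ℤ) :
    ∃ (q : ℕ) (X Y : Equiv.Perm (ZMod q)), Y ^ p = 1 ∧
      ((p : ℤ) ∣ k + l → (p : ℤ) ∣ a + b → Y ^ k * X ^ a * Y ^ l * X ^ b = 1) ∧
      ((∀ j : ℕ, X ^ p ^ j ≠ 1) ∨ ∀ j : ℕ, (X * Y) ^ p ^ j ≠ 1) := by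
  by_cases h : ¬ (p : ℤ) ∣ l ∧ a ≠ 0 ∧ b ≠ 0
  · obtain ⟨hl, ha, hb⟩ := h
    obtain ⟨q, X, Y, h1, h2, h3⟩ := affine p hp h5 a (-b) ha (neg_ne_zero.mpr hb)
    obtain ⟨c, m, hcm⟩ := (Prime.coprime_iff_not_dvd (Nat.prime_iff_prime_int.mp hp)).mpr hl
    have hY : (Y ^ m) ^ p = 1 := by
      rw [← zpow_natCast, ← zpow_mul]
      exact zp_dvd h2 (dvd_mul_left _ _)
    have hl' : (Y ^ m) ^ l = Y := by
      rw [← zpow_mul, show m * l = 1 + p * (-c) by linear_combination hcm, zpow_add, zpow_one,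
        zp_dvd h2 (dvd_mul_right _ _), mul_one]
    refine ⟨q, X, Y ^ m, hY, fun hkl _ => ?_, Or.inl h3⟩
    have hk' : (Y ^ m) ^ k = Y⁻¹ := by
      rw [show k = (k + l) + -l by ring, zpow_add, zp_dvd hY hkl, zpow_neg, hl', one_mul]
    rw [hk', hl']
    simpa using h1
  · obtain ⟨q, X, Y, h1, h2, h3⟩ := rot p hp h5
    refine ⟨q, X, Y, h2, fun hkl hab => ?_, Or.inr h3⟩
    by_cases hl : (p : ℤ) ∣ l
    · have hk : (p : ℤ) ∣ k := by simpa using dvd_sub hkl hl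
      rw [zp_dvd h2 hk, zp_dvd h2 hl, one_mul, mul_one, ← zpow_add, zp_dvd h1 hab]
    · have hd : (p : ℤ) ∣ a ∧ (p : ℤ) ∣ b := by
        by_cases ha : a = 0
        · subst ha; exact ⟨dvd_zero _, by simpa using hab⟩
        · have hb : b = 0 := by
            by_contra hb
            exact h ⟨hl, ha, hb⟩
          subst hb; exact ⟨by simpa using hab, dvd_zero _⟩
      rw [zp_dvd h1 hd.1, zp_dvd h1 hd.2, mul_one, mul_one, ← zpow_add, zp_dvd h2 hkl]

open FreeGroup in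
theorem gen (p : ℕ) (hp : p.Prime) (R : Set (FreeGroup (Fin 3)))
    [Finite (PresentedGroup R)] (hG : IsPGroup p (PresentedGroup R)) (s t : Fin 3)
    (H : ∀ (K : Type) [Group K] (f : FreeGroup (Fin 3) →* K), (∀ r ∈ R, f r = 1) →
      f (of s) = 1 → f (of t) = 1 → ∀ j, ∃ n : ℤ, ¬ (p : ℤ) ∣ n ∧ f (of j) ^ n = 1) :
    Subgroup.closure ({PresentedGroup.of s, PresentedGroup.of t} : Set (PresentedGroup R)) = ⊤ := by
  have : Fact p.Prime := ⟨hp⟩
  by_contra hne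
  obtain ⟨M, hM, hle⟩ := (eq_top_or_exists_le_coatom _).resolve_left hne
  have hnil := hG.isNilpotent
  have hN : M.Normal :=
    Subgroup.NormalizerCondition.normal_of_coatom M Group.normalizerCondition_of_isNilpotent hM
  let f : FreeGroup (Fin 3) →* PresentedGroup R ⧸ M :=
    (QuotientGroup.mk' M).comp (PresentedGroup.mk R)
  have hs : f (of s) = 1 :=
    (QuotientGroup.eq_one_iff _).mpr (hle (Subgroup.subset_closure (Or.inl rfl)))
  have ht : f (of t) = 1 :=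
    (QuotientGroup.eq_one_iff _).mpr (hle (Subgroup.subset_closure (Or.inr rfl)))
  have hr : ∀ r ∈ R, f r = 1 := by
    intro r hr
    show QuotientGroup.mk' M (PresentedGroup.mk R r) = 1
    rw [PresentedGroup.one_of_mem hr, _root_.map_one]
  refine hM.1 (eq_top_iff.mpr fun g _ => PresentedGroup.generated_by R M ?_ g)
  intro j
  obtain ⟨n, hn, h1⟩ := H _ f hr hs ht j
  obtain ⟨k, hk⟩ := (IsPGroup.iff_orderOf.mp (hG.to_quotient M)) (f (of j))
  have hk0 : k = 0 := by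
    by_contra h0
    have h2 := orderOf_dvd_iff_zpow_eq_one.mpr h1
    rw [hk] at h2
    push_cast at h2
    exact hn ((dvd_pow_self _ h0).trans h2)
  rw [hk0, pow_zero, orderOf_eq_one_iff] at hk
  exact (QuotientGroup.eq_one_iff _).mp hk

open FreeGroup in
theorem result (p : ℕ) (hp : p.Prime) (h5 : 5 ≤ p) (a b k l : ℤ)
    (R : Set (FreeGroup (Fin 3)))
    (hR : ∀ r ∈ R,
      (lift ![of 0, of 1, 1] r : FreeGroup (Fin 3)) = of 1 ^ k * of 0 ^ a * of 1 ^ l * of 0 ^ b ∨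
      ∃ n : ℤ, (lift ![of 0, of 1, 1] r : FreeGroup (Fin 3)) = of 1 ^ n)
    [Finite (PresentedGroup R)] (hG : IsPGroup p (PresentedGroup R)) :
    ∃ g h : PresentedGroup R, Subgroup.closure {g, h} = ⊤ := by
  have h1 : ¬ (p : ℤ) ∣ 1 := (Nat.prime_iff_prime_int.mp hp).not_dvd_one
  by_cases hA : ∃ r ∈ R, ∃ n : ℤ, ¬ (p : ℤ) ∣ n ∧
      (lift ![of 0, of 1, 1] r : FreeGroup (Fin 3)) = of 1 ^ n
  · obtain ⟨r, hr, n, hn, hrn⟩ := hA
    refine ⟨_, _, gen p hp R hG 0 2 fun K _ f hf hs ht j => ?_⟩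
    fin_cases j
    · exact ⟨1, h1, by simpa using hs⟩
    · refine ⟨n, hn, ?_⟩
      have := (factor f ht r).trans (hf r hr)
      rw [hrn] at this
      simpa using this
    · exact ⟨1, h1, by simpa using ht⟩
  by_cases hB : ∃ r ∈ R, ¬ (p : ℤ) ∣ k + l ∧
      (lift ![of 0, of 1, 1] r : FreeGroup (Fin 3)) = of 1 ^ k * of 0 ^ a * of 1 ^ l * of 0 ^ b
  · obtain ⟨r, hr, hn, hrn⟩ := hB
    refine ⟨_, _, gen p hp R hG 0 2 fun K _ f hf hs ht j => ?_⟩
    fin_cases j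
    · exact ⟨1, h1, by simpa using hs⟩
    · refine ⟨k + l, hn, ?_⟩
      have := (factor f ht r).trans (hf r hr)
      rw [hrn] at this
      simpa [hs, zpow_add] using this
    · exact ⟨1, h1, by simpa using ht⟩
  by_cases hC : ∃ r ∈ R, ¬ (p : ℤ) ∣ a + b ∧
      (lift ![of 0, of 1, 1] r : FreeGroup (Fin 3)) = of 1 ^ k * of 0 ^ a * of 1 ^ l * of 0 ^ b
  · obtain ⟨r, hr, hn, hrn⟩ := hC
    refine ⟨_, _, gen p hp R hG 1 2 fun K _ f hf hs ht j => ?_⟩
    fin_cases j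
    · refine ⟨a + b, hn, ?_⟩
      have := (factor f ht r).trans (hf r hr)
      rw [hrn] at this
      simpa [hs, zpow_add] using this
    · exact ⟨1, h1, by simpa using hs⟩
    · exact ⟨1, h1, by simpa using ht⟩
  exfalso
  obtain ⟨q, X, Y, h2, h3, h4⟩ := pair p hp h5 a b k l
  have hrel : ∀ r ∈ R, lift ![X, Y, 1] r = 1 := by
    intro r hr
    rw [← factor (lift ![X, Y, 1]) (by simp) r]
    rcases hR r hr with h | ⟨n, h⟩
    · have e1 : (p : ℤ) ∣ k + l := by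
        by_contra hn
        exact hB ⟨r, hr, hn, h⟩
      have e2 : (p : ℤ) ∣ a + b := by
        by_contra hn
        exact hC ⟨r, hr, hn, h⟩
      rw [h]; simpa using h3 e1 e2
    · have hn : (p : ℤ) ∣ n := by
        by_contra hn
        exact hA ⟨r, hr, n, hn, h⟩
      rw [h]; simpa using zp_dvd h2 hn
  rcases h4 with h4 | h4
  · obtain ⟨j, hj⟩ := hG (PresentedGroup.of 0)
    have := congrArg (PresentedGroup.toGroup hrel) hj
    rw [map_pow, _root_.map_one, PresentedGroup.toGroup.of] at this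
    exact h4 j this
  · obtain ⟨j, hj⟩ := hG (PresentedGroup.of 0 * PresentedGroup.of 1)
    have := congrArg (PresentedGroup.toGroup hrel) hj
    rw [map_pow, _root_.map_one, _root_.map_mul, PresentedGroup.toGroup.of,
      PresentedGroup.toGroup.of] at this
    exact h4 j this

end Pool.Agent.Lib.MP_fac56a_al.FourSyllables
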